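import Pool.Agent.H461R3.Col.Alg

namespace Pool.Agent.Results.MP_52e257_al.ColourAlgebra

open Pool.Agent.H461R3.Col

universe u

/-- Over every field `F` of characteristic different from 2 there is a simple noncommutative
Jordan `F`-algebra of infinite dimension over `F` satisfying `([x,y],y,y) = 0` that is neither
alternative nor Jordan: the split colour algebra over any field extension of infinite degree,
for example `F(t)`. -/
theorem result (F : Type u) [Field F] (h2 : (2 : F) ≠ 0) :
    (∃ (A : Type u) (_ : NonUnitalNonAssocRing A) (_ : Module F A) (_ : IsScalarTower F A A)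
      (_ : SMulCommClass F A A),
      IsSimpleAlg F A ∧ ¬ Module.Finite F A ∧ IsNCJ A ∧ CommutatorId A ∧ ¬ IsAlt A ∧
        ¬ IsJord A) ∧
    ∀ (K : Type u) [Field K] [Algebra F K],
      IsSimpleAlg F (Colour K) ∧ IsNCJ (Colour K) ∧ CommutatorId (Colour K) ∧
        ¬ IsAlt (Colour K) ∧ ¬ IsJord (Colour K) ∧
        (¬ Module.Finite F K → ¬ Module.Finite F (Colour K)) := by
  have two : ∀ (K : Type u) [Field K] [Algebra F K], (2 : K) ≠ 0 := by
    intro K _ _ h
    apply h2
    apply (algebraMap F K).injective
    rw [map_ofNat, map_zero]
    exact h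
  refine ⟨⟨Colour (RatFunc F), inferInstance, inferInstance, inferInstance, inferInstance,
    colour_simple (two _), colour_infinite (ratFunc_infinite F), colour_ncj, colour_comm,
    colour_not_alt, colour_not_comm (two _)⟩, ?_⟩
  intro K _ _
  exact ⟨colour_simple (two K), colour_ncj, colour_comm, colour_not_alt, colour_not_comm (two K),
    colour_infinite⟩

end Pool.Agent.Results.MP_52e257_al.ColourAlgebra
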