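import Mathlib
import Pool.Agent.H254R3.NCJ.Defs
import Pool.Agent.H254R3.NCJ.Trace

/-!
# Simple quadratic algebras with `([x,y],y,y) = 0`

A simple flexible quadratic algebra over a field of characteristic not two, of arbitrary
(possibly infinite) dimension, which satisfies `([x,y],y,y) = 0` is alternative, or a Jordan
algebra, or has dimension exactly seven.
-/

set_option autoImplicit false

namespace Pool.Agent.Results.MP_52e257_al.QuadraticClassification

open Pool.Agent.H254R3.NCJ

/-- Let `A` be a simple unital algebra of arbitrary dimension over a field `K` of characteristic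
not two, in which every element satisfies a quadratic equation over `K`. If `A` is flexible (then
it is noncommutative Jordan) and satisfies `([x,y],y,y) = 0`, then `A` is alternative, or a Jordan
algebra, or `dim_K A = 7`. -/
theorem result (K A : Type) [Field K] [NonAssocRing A] [Module K A] [IsScalarTower K A A]
    [SMulCommClass K A A] (h2 : (2 : K) ≠ 0)
    (hq : ∀ x : A, ∃ α β : K, x * x = α • x + β • (1 : A)) (hs : IsSimpleAlg K A)
    (hf : ∀ x y : A, (x * y) * x = x * (y * x)) (hC : CommIdentity A) :
    IsAlternative A ∨ IsJordanAlg A ∨ Module.finrank K A = 7 := by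
  have h01 : (1 : A) ≠ 0 := by
    intro h
    obtain ⟨x, y, hxy⟩ := hs.1
    apply hxy
    rw [← one_mul x, h, zero_mul, zero_mul]
  rcases quad_classification h2 (isQuadratic_of h2 h01 hq) hs hf hC with h | h | h
  · exact Or.inl h
  · right; left
    refine ⟨h, fun x y => ?_⟩
    obtain ⟨α, β, e⟩ := hq x
    rw [e]
    simp only [add_mul, smul_mul_assoc, one_mul, hf x y]
  · exact Or.inr (Or.inr h)

end Pool.Agent.Results.MP_52e257_al.QuadraticClassification
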